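import Pool.Agent.Helper71.BF.Lib

/-!
# Under the continuum hypothesis the two relations agree if one structure is liberal
-/

open Set Cardinal FirstOrder FirstOrder.Language Helper71.BF

namespace Pool.Agent.Results.MP_5210fd_lc.LiberalStructures

theorem result (L : FirstOrder.Language.{0, 0}) :
    (∀ lam : Cardinal.{0}, ℵ₀ ≤ lam → lam ^ ℵ₀ = lam → Agree L lam) ∧
    (Cardinal.continuum.{0} = ℵ_ 1 → Agree L (ℵ_ 2)) :=
  ⟨agree L, fun h => agree L (ℵ_ 2) (Cardinal.aleph0_le_aleph 2) (aleph_two_power h)⟩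

end Pool.Agent.Results.MP_5210fd_lc.LiberalStructures
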