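import Pool.Agent.Helper71.BF.Pieces

/-!
# A winning strategy gives a closed back-and-forth set or respects small named pieces
-/

open Set Cardinal FirstOrder FirstOrder.Language Helper71.BF

namespace Pool.Agent.Results.MP_5210fd_lc.NamedPieces

theorem result (L : FirstOrder.Language.{0, 0}) :
    (∀ lam : Cardinal.{0}, ℵ₀ ≤ lam → lam ^ ℵ₀ = lam →
      ∀ (M N : Type) [L.Structure M] [L.Structure N], #M = lam → #N ≤ lam →
        ∀ σ : Strategy L M N, BFEquiv L M N ∨ ∃ c α, (∀ ξ, Legal (c ξ)) ∧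
          σ.ChainCondition c α lam ∧
          (lam.IsRegular → ∃ (I : Type) (π : M → I) (π' : N → I),
            SmallPieces σ c α lam I π π')) ∧
    (Cardinal.continuum.{0} = ℵ_ 1 →
      ∀ (M N : Type) [L.Structure M] [L.Structure N], #M = ℵ_ 2 → #N ≤ ℵ_ 2 →
        ∀ σ : Strategy L M N, BFEquiv L M N ∨ ∃ c α, (∀ ξ, Legal (c ξ)) ∧
          σ.ChainCondition c α (ℵ_ 2) ∧
          ∃ (I : Type) (π : M → I) (π' : N → I), SmallPieces σ c α (ℵ_ 2) I π π') := by
  refine ⟨fun lam h0 h1 => dichotomy' L lam h0 h1, fun hCH M N _ _ hM hN σ => ?_⟩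
  rcases dichotomy' L (ℵ_ 2) (Cardinal.aleph0_le_aleph 2) (aleph_two_power hCH) M N hM hN σ with
    h | ⟨c, α, hc, hcc, h⟩
  · exact Or.inl h
  · exact Or.inr ⟨c, α, hc, hcc, h isRegular_aleph_two⟩

end Pool.Agent.Results.MP_5210fd_lc.NamedPieces
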