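import Pool.Agent.Helper71.BF.Final

/-!
# Back-and-forth sets on which the second player wins the game of length `ω`
-/

open Set Cardinal FirstOrder FirstOrder.Language Helper71.BF

namespace Pool.Agent.Results.MP_5210fd_lc.StrategicFamilies

theorem result (L : FirstOrder.Language.{0, 0}) :
    (∀ (M N : Type) [L.Structure M] [L.Structure N] (W : Set (Set (M × N))), #W ≤ #M →
      W.Nonempty → IsBackForth L W → WinsOn W → BFEquiv L M N) ∧
    (∀ lam : Cardinal.{0}, ℵ₀ ≤ lam → lam ^ ℵ₀ = lam → Criterion L lam) ∧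
    (Cardinal.continuum.{0} = ℵ_ 1 → Criterion L (ℵ_ 2)) :=
  ⟨fun _ _ _ _ _ h1 h2 h3 h4 => bfEquiv_of_card_le h1 h2 h3 h4, criterion L,
    fun h => criterion L (ℵ_ 2) (Cardinal.aleph0_le_aleph 2) (aleph_two_power h)⟩

end Pool.Agent.Results.MP_5210fd_lc.StrategicFamilies
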