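import Pool.Agent.Helper71.BF.Tri2

/-!
# Counterexamples, Suslin trees and undecided sets
-/

open Set Cardinal FirstOrder FirstOrder.Language Helper71.BF

namespace Pool.Agent.Results.MP_5210fd_lc.SuslinTrichotomy

theorem result (L : FirstOrder.Language.{0, 0}) :
    (∀ lam : Cardinal.{0}, ℵ₀ ≤ lam → lam ^ ℵ₀ = lam → lam.IsRegular → Trichotomy L lam) ∧
    (Cardinal.continuum.{0} = ℵ_ 1 → Trichotomy L (ℵ_ 2)) ∧
    (Cardinal.continuum.{0} = ℵ_ 1 →
      (¬ ∃ (T : Type) (lt : T → T → Prop), IsSuslinTree (ℵ_ 2) T lt) →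
      ∀ (M N : Type) [L.Structure M] [L.Structure N], #M = ℵ_ 2 → #N ≤ ℵ_ 2 →
        (∃ a H, IsGuided L M N (ℵ_ 2) a H) → (Nonempty (Strategy L M N) ↔ BFEquiv L M N)) := by
  refine ⟨fun lam h0 h1 hreg => trichotomy' L lam h0 h1 hreg, fun hCH =>
    trichotomy' L (ℵ_ 2) (Cardinal.aleph0_le_aleph 2) (aleph_two_power hCH) isRegular_aleph_two,
    fun hCH hsus M N _ _ hM hN ⟨a, H, hg⟩ => ?_⟩
  exact agree_of_guided (ℵ_ 2) (Cardinal.aleph0_le_aleph 2) (aleph_two_power hCH)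
    isRegular_aleph_two hsus hM hN hg

end Pool.Agent.Results.MP_5210fd_lc.SuslinTrichotomy
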